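import Pool.Agent.W819.TF.Defs
import Pool.Agent.Helper67.Conv.Antisym

set_option autoImplicit false
open MeasureTheory SchwartzMap Set

namespace Pool.Agent.W819.TF

open Pool.Agent.Helper67.Conv

/-- Dilation of configurations. -/
noncomputable def dilE (M : ℕ) (s : ℝ) (hs : s ≠ 0) : Config M ≃L[ℝ] Config M :=
  (LinearEquiv.smulOfNeZero ℝ (Config M) s hs).toContinuousLinearEquiv

lemma dilE_apply (M : ℕ) (s : ℝ) (hs : s ≠ 0) (x : Config M) : dilE M s hs x = s • x := rfl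

/-- Dilation of a Schwartz function. -/
noncomputable def dilS {M : ℕ} (s : ℝ) (hs : s ≠ 0) (r : ℝ) (f : 𝓢(Config M, ℂ)) :
    𝓢(Config M, ℂ) := (r : ℂ) • compCLMOfContinuousLinearEquiv ℂ (dilE M s hs) f

lemma dilS_apply {M : ℕ} (s : ℝ) (hs : s ≠ 0) (r : ℝ) (f : 𝓢(Config M, ℂ)) (x : Config M) :
    dilS s hs r f x = (r : ℂ) * f (s • x) := by
  unfold dilS
  rw [_root_.smul_apply, smul_eq_mul]
  rfl

lemma fderiv_dilS {M : ℕ} (s : ℝ) (hs : s ≠ 0) (r : ℝ) (f : 𝓢(Config M, ℂ)) (x v : Config M) :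
    fderiv ℝ (fun y => dilS s hs r f y) x v =
      (r : ℂ) * (s : ℂ) * fderiv ℝ (fun y => f y) (s • x) v := by
  have h1 : HasFDerivAt (fun y => f y) (fderiv ℝ (fun y => f y) (s • x)) (s • x) :=
    (f.differentiableAt).hasFDerivAt
  have h2 : HasFDerivAt (fun y : Config M => s • y) (s • ContinuousLinearMap.id ℝ (Config M)) x :=
    (hasFDerivAt_id x).const_smul s
  have h3 := (h1.comp x h2).const_mul (r : ℂ)
  have e : (fun y => dilS s hs r f y) = fun y => (r : ℂ) * ((fun y => f y) ∘ fun y => s • y) y := by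
    funext y
    rw [dilS_apply]
    rfl
  rw [e, h3.fderiv]
  simp
  ring

lemma wave_one_antisymmetric (ψ : Wave 1) : Antisymmetric ψ := by
  intro τ σ x
  have hτ : τ = 1 := Subsingleton.elim _ _
  subst hτ
  simp

lemma finrank_config (M : ℕ) : Module.finrank ℝ (Config M) = M * 3 := by simp

lemma int_dil {M : ℕ} {s : ℝ} (hs : 0 < s) (g : Config M → ℝ) :
    s ^ (M * 3) * ∫ x : Config M, g (s • x) = ∫ x : Config M, g x := by
  rw [Measure.integral_comp_smul, finrank_config, abs_of_pos (by positivity), smul_eq_mul]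
  field_simp

/-- The one electron form in atomic units, at one unit charge. -/
lemma one_electron (R : Fin 1 → Space) (ψ : Wave 1) :
    energy (one 1) R ψ = kinetic ψ - ∑ σ, ∫ x : Config 1, 1 / ‖pos x 0 - R 0‖ * ‖ψ σ x‖ ^ 2 := by
  unfold energy
  rw [sub_eq_add_neg, ← Finset.sum_neg_distrib]
  congr 1
  refine Finset.sum_congr rfl fun σ _ => ?_
  rw [← integral_neg]
  congr 1
  funext x
  unfold potential
  simp

lemma quantumForm_one (z : ℝ) (R : Fin 1 → Space) (ψ : Wave 1) :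
    quantumForm (fun _ => z) R ψ =
      (∑ σ, ∫ x : Config 1, ∑ p : Fin 1 × Fin 3,
        ‖fderiv ℝ (fun y => ψ σ y) x (EuclideanSpace.single p 1)‖ ^ 2) -
      z * ∑ σ, ∫ x : Config 1, 1 / ‖pos x 0 - R 0‖ * ‖ψ σ x‖ ^ 2 := by
  unfold quantumForm nuclearRepulsion
  simp only [Fin.sum_univ_one, lt_self_iff_false, if_false, zero_mul, add_zero, zero_sub]
  rw [sub_eq_add_neg]
  congr 1
  rw [Finset.mul_sum, ← Finset.sum_neg_distrib]
  refine Finset.sum_congr rfl fun σ _ => ?_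
  rw [← integral_const_mul, ← integral_neg]
  congr 1
  funext x
  unfold attraction
  rw [Fin.sum_univ_one]
  ring

/-- Scaling of the one electron form. -/
lemma scaled_form {z : ℝ} (hz : 0 < z) (R : Fin 1 → Space) (ψ : Wave 1)
    (hn : normSq ψ = 1) :
    ∃ φ : Wave 1, Antisymmetric φ ∧ normSq φ = 1 ∧
      quantumForm (fun _ => z) R φ =
        z ^ 2 / 2 * energy (one 1) (fun _ => (z / 2) • R 0) ψ := by
  set s : ℝ := z / 2 with hs
  have hs0 : 0 < s := by positivity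
  set r : ℝ := Real.sqrt (s ^ 3) with hr
  have hr2 : r ^ 2 = s ^ 3 := Real.sq_sqrt (by positivity)
  let φ : Wave 1 := fun σ => dilS s hs0.ne' r (ψ σ)
  refine ⟨φ, wave_one_antisymmetric φ, ?_, ?_⟩
  · rw [← hn]
    unfold normSq
    refine Finset.sum_congr rfl fun σ _ => ?_
    have := int_dil hs0 (fun x : Config 1 => ‖ψ σ x‖ ^ 2)
    rw [← this, ← integral_const_mul]
    congr 1
    funext x
    simp only [φ]
    rw [dilS_apply, norm_mul, mul_pow, Complex.norm_real, Real.norm_eq_abs, sq_abs, hr2]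
  · rw [quantumForm_one, one_electron]
    have e1 : ∀ σ, ∫ x : Config 1, ∑ p : Fin 1 × Fin 3,
        ‖fderiv ℝ (fun y => φ σ y) x (EuclideanSpace.single p 1)‖ ^ 2 =
        2 * s ^ 2 * ∫ x : Config 1, 1 / 2 * ∑ p : Fin 1 × Fin 3,
        ‖fderiv ℝ (fun y => ψ σ y) x (EuclideanSpace.single p 1)‖ ^ 2 := by
      intro σ
      have h := int_dil hs0 (fun x : Config 1 => 1 / 2 * ∑ p : Fin 1 × Fin 3,
        ‖fderiv ℝ (fun y => ψ σ y) x (EuclideanSpace.single p 1)‖ ^ 2)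
      rw [← h, ← integral_const_mul, ← integral_const_mul]
      congr 1
      funext x
      rw [Finset.mul_sum, Finset.mul_sum, Finset.mul_sum]
      refine Finset.sum_congr rfl fun p _ => ?_
      simp only [φ]
      rw [fderiv_dilS, norm_mul, norm_mul, mul_pow, mul_pow, Complex.norm_real, Complex.norm_real,
        Real.norm_eq_abs, Real.norm_eq_abs, sq_abs, sq_abs, hr2]
      ring
    have e2 : ∀ σ, ∫ x : Config 1, 1 / ‖pos x 0 - R 0‖ * ‖φ σ x‖ ^ 2 =
        s * ∫ x : Config 1, 1 / ‖pos x 0 - s • R 0‖ * ‖ψ σ x‖ ^ 2 := by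
      intro σ
      have h := int_dil hs0 (fun x : Config 1 => 1 / ‖pos x 0 - s • R 0‖ * ‖ψ σ x‖ ^ 2)
      rw [← h, ← integral_const_mul, ← integral_const_mul]
      congr 1
      funext x
      simp only [φ]
      rw [dilS_apply, norm_mul, mul_pow, Complex.norm_real, Real.norm_eq_abs, sq_abs, hr2]
      have e3 : ‖pos (s • x) 0 - s • R 0‖ = s * ‖pos x 0 - R 0‖ := by
        have : pos (s • x) 0 = s • pos x 0 := rfl
        rw [this, ← smul_sub, norm_smul, Real.norm_of_nonneg hs0.le]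
      rw [e3]
      rcases eq_or_ne ‖pos x 0 - R 0‖ 0 with h0 | h0
      · rw [h0]
        simp
      · field_simp
        ring
    simp_rw [e1, e2]
    rw [← Finset.mul_sum, ← Finset.mul_sum]
    unfold kinetic
    rw [hs]
    ring

/-- Trial energies for the hydrogen atom. -/
lemma hydrogen_trial (Q : Space) {ε : ℝ} (hε : 0 < ε) :
    ∃ ψ : Wave 1, normSq ψ = 1 ∧ energy (one 1) (fun _ => Q) ψ ≤ -(1 / 2) + ε := by
  -- parameters
  obtain ⟨κ, hκ, hκ1, hκe⟩ : ∃ κ : ℝ, 0 < κ ∧ κ ≤ 1 ∧ κ ^ 2 ≤ ε / 3 := by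
    refine ⟨min 1 (Real.sqrt (ε / 3)), by positivity, min_le_left _ _, ?_⟩
    calc (min 1 (Real.sqrt (ε / 3))) ^ 2 ≤ (Real.sqrt (ε / 3)) ^ 2 :=
          pow_le_pow_left₀ (by positivity) (min_le_right _ _) 2
      _ = ε / 3 := Real.sq_sqrt (by positivity)
  obtain ⟨l, hl6, hle⟩ : ∃ l : ℝ, 6 ≤ l ∧ 8 / l ^ 2 ≤ ε / 3 := by
    refine ⟨max 6 (24 / ε), le_max_left _ _, ?_⟩
    have h1 : 24 / ε ≤ max 6 (24 / ε) := le_max_right _ _
    have h2 : (6 : ℝ) ≤ max 6 (24 / ε) := le_max_left _ _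
    set m := max 6 (24 / ε)
    have h3 : 0 < 24 / ε := by positivity
    have h4 : 24 / ε ≤ m ^ 2 := by nlinarith
    rw [div_le_iff₀ (by positivity)]
    calc (8 : ℝ) = ε / 3 * (24 / ε) := by field_simp; norm_num
      _ ≤ ε / 3 * m ^ 2 := mul_le_mul_of_nonneg_left h4 (by positivity)
  have hl0 : 0 < l := by linarith
  obtain ⟨lam, hlam, hlame⟩ : ∃ lam : ℝ, 4 * l ≤ lam ∧ 6 * l / lam ^ 2 ≤ ε / 3 := by
    refine ⟨max (4 * l) (18 * l / ε), le_max_left _ _, ?_⟩
    have h1 : 18 * l / ε ≤ max (4 * l) (18 * l / ε) := le_max_right _ _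
    have h2 : 4 * l ≤ max (4 * l) (18 * l / ε) := le_max_left _ _
    set m := max (4 * l) (18 * l / ε)
    have h3 : 0 < 18 * l / ε := by positivity
    have h4 : 18 * l / ε ≤ m ^ 2 := by nlinarith
    have hm : 0 < m := by linarith
    rw [div_le_iff₀ (by positivity)]
    calc 6 * l = ε / 3 * (18 * l / ε) := by field_simp; norm_num
      _ ≤ ε / 3 * m ^ 2 := mul_le_mul_of_nonneg_left h4 (by positivity)
  have hlam0 : 0 < lam := by linarith
  let P : Fin 1 → Space := fun _ => lam⁻¹ • Q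
  have hP : ∀ j k, j ≠ k → 1 ≤ ‖P j - P k‖ := by
    intro j k hjk
    exact absurd (Subsingleton.elim j k) hjk
  have hw : ∀ τ : Equiv.Perm (Fin 1), Wc P ((id : Fin 1 → Fin 1) ∘ τ) ≤ 0 := by
    intro τ
    unfold Wc
    simp
    refine Finset.sum_nonneg fun k _ => by positivity
  obtain ⟨ψ, _, hn, he⟩ := exists_trial hκ hκ1 hl6 hlam hP (id : Fin 1 → Fin 1)
    Function.injective_id hw
  refine ⟨ψ, hn, ?_⟩
  have hsc : sc lam P = fun _ => Q := by
    funext k
    unfold sc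
    simp only [P]
    rw [smul_smul, mul_inv_cancel₀ hlam0.ne', one_smul]
  rw [hsc] at he
  have : (4 * ((1 : ℕ) : ℝ) ^ 2 + 2 * ((1 : ℕ) : ℝ) * ((1 : ℕ) : ℝ)) * l / lam ^ 2 =
      6 * l / lam ^ 2 := by
    push_cast
    ring
  rw [this] at he
  push_cast at he
  rw [zero_div] at he
  linarith

/-- Lower bound of the one electron form. -/
lemma form_lower {z : ℝ} (hz : 0 ≤ z) (hz2 : z ≤ 2) (R : Fin 1 → Space) :
    ∃ C : ℝ, ∀ ψ : Wave 1, -(C * normSq ψ) ≤ quantumForm (fun _ => z) R ψ := by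
  obtain ⟨B, hB0, hB⟩ := exists_bound_deriv
  have hsep : Sep 1 R := by
    intro j k hjk
    exact absurd (Subsingleton.elim j k) hjk
  refine ⟨((1 : ℕ) : ℝ) * (1 + 2 * (8 / 3 * B / 1)) + 2 * z, fun ψ => ?_⟩
  set C := ((1 : ℕ) : ℝ) * (1 + 2 * (8 / 3 * B / 1)) + 2 * z with hC
  rw [quantumForm_one]
  unfold normSq
  rw [Finset.mul_sum, Finset.mul_sum, ← Finset.sum_neg_distrib, ← Finset.sum_sub_distrib]
  refine Finset.sum_le_sum fun σ _ => ?_
  have h1 := kin_lower (l := 1) one_pos hsep (ψ σ) 0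
  have h2 : ∫ x : Config 1, ∑ p : Fin 1 × Fin 3,
      ‖fderiv ℝ (fun y => ψ σ y) x (EuclideanSpace.single p 1)‖ ^ 2 =
      ∑ c, ∫ x : Config 1, ‖dv (ψ σ) (ee 0 c) x‖ ^ 2 := by
    change ∫ x : Config 1, ∑ p : Fin 1 × Fin 3, ‖dv (ψ σ) (EuclideanSpace.single p 1) x‖ ^ 2 = _
    rw [integral_finsetSum _ (fun p _ => dv_normSq_integrable (ψ σ) (EuclideanSpace.single p 1)),
      Fintype.sum_prod_type, Fin.sum_univ_one]
    rfl
  rw [h2]
  have iatt : Integrable (fun x : Config 1 => 1 / ‖pos x 0 - R 0‖ * ‖ψ σ x‖ ^ 2) := by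
    simp only [norm_pos_sub]
    exact att_int (ψ σ) 0 (R 0)
  have ia := aa0_int 1 R (ψ σ) 0
  have ib := bb_int one_pos R (ψ σ) 0
  have iab : Integrable (fun x : Config 1 => (aa0 1 R 0 x - bb 1 R 0 x) * ‖ψ σ x‖ ^ 2) := by
    refine (ia.sub ib).congr (Filter.Eventually.of_forall fun x => ?_)
    simp only [Pi.sub_apply]
    ring
  have h3 : -(C * ∫ x : Config 1, ‖ψ σ x‖ ^ 2) ≤
      (∫ x : Config 1, (aa0 1 R 0 x - bb 1 R 0 x) * ‖ψ σ x‖ ^ 2) -
        z * ∫ x : Config 1, 1 / ‖pos x 0 - R 0‖ * ‖ψ σ x‖ ^ 2 := by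
    rw [← integral_const_mul, ← integral_const_mul, ← integral_neg,
      ← integral_sub iab (iatt.const_mul z)]
    refine integral_mono_ae ((normSq_integrable (ψ σ)).const_mul C).neg
      (iab.sub (iatt.const_mul z)) ?_
    filter_upwards [ae_qq_ne_zero (M := 1) 0 (R 0)] with x hx
    have hb := bb_bound hB (l := 1) one_pos R 0 x
    have hq : 0 < qq x 0 (R 0) := lt_of_le_of_ne (qq_nonneg _ _ _) hx.symm
    have hs : 0 < Real.sqrt (qq x 0 (R 0)) := Real.sqrt_pos.mpr hq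
    have hkey : z * (1 / ‖pos x 0 - R 0‖) ≤ aa0 1 R 0 x + 2 * z := by
      rw [norm_pos_sub]
      unfold aa0
      rw [Fin.sum_univ_one]
      by_cases hc : qq x 0 (R 0) ≤ 1 ^ 2 / 4
      · have ht : chi 1 (qq x 0 (R 0)) = 1 := by
          unfold chi
          rw [tt_eq_zero one_pos hc]
          norm_num
        rw [ht, mul_one_div, mul_one_div]
        have : z / Real.sqrt (qq x 0 (R 0)) ≤ 2 / Real.sqrt (qq x 0 (R 0)) :=
          div_le_div_of_nonneg_right hz2 hs.le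
        linarith
      · push Not at hc
        have h5 : 1 / 2 ≤ Real.sqrt (qq x 0 (R 0)) := by
          apply Real.le_sqrt_of_sq_le
          linarith
        have h6 : 1 / Real.sqrt (qq x 0 (R 0)) ≤ 2 := by
          rw [div_le_iff₀ hs]
          linarith
        have h7 : 0 ≤ 2 * (chi 1 (qq x 0 (R 0)) / Real.sqrt (qq x 0 (R 0))) := by
          have := chi_nonneg 1 (qq x 0 (R 0))
          positivity
        nlinarith
    have h8 : -C ≤ aa0 1 R 0 x - bb 1 R 0 x - z * (1 / ‖pos x 0 - R 0‖) := by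
      have := (abs_le.mp hb).2
      rw [hC]
      linarith
    have h9 : 0 ≤ ‖ψ σ x‖ ^ 2 := by positivity
    calc -(C * ‖ψ σ x‖ ^ 2) = -C * ‖ψ σ x‖ ^ 2 := by ring
      _ ≤ (aa0 1 R 0 x - bb 1 R 0 x - z * (1 / ‖pos x 0 - R 0‖)) * ‖ψ σ x‖ ^ 2 :=
        mul_le_mul_of_nonneg_right h8 h9
      _ = _ := by ring
  linarith

end Pool.Agent.W819.TF
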