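import Pool.Agent.Helper67.Conv.Defs

set_option autoImplicit false
open MeasureTheory SchwartzMap

namespace Pool.Agent.W819.TF

open Pool.Agent.Helper67.Conv (Space Config pos Wave Antisymmetric normSq)

/-- The attraction `V(x) = ∑ z_j / |x - R_j|` of nuclei of charges `z j` at `R j`. -/
noncomputable def attraction {k : ℕ} (z : Fin k → ℝ) (R : Fin k → Space) (x : Space) : ℝ :=
  ∑ j, z j / ‖x - R j‖

/-- The repulsion `U = ∑_{i<j} z_i z_j / |R_i - R_j|` of the nuclei. -/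
noncomputable def nuclearRepulsion {k : ℕ} (z : Fin k → ℝ) (R : Fin k → Space) : ℝ :=
  ∑ i : Fin k, ∑ j : Fin k, if i < j then z i * z j / ‖R i - R j‖ else 0

/-- The quadratic form `⟨ψ, H_N ψ⟩` of
`H_N = ∑ (-Δ_i - V(x_i)) + ∑_{i<j} |x_i - x_j|⁻¹ + U` for `N` electrons of spin `1/2`. -/
noncomputable def quantumForm {N k : ℕ} (z : Fin k → ℝ) (R : Fin k → Space) (ψ : Wave N) : ℝ :=
  (∑ σ, ∫ x : Config N, ∑ p : Fin N × Fin 3,
      ‖fderiv ℝ (fun y => ψ σ y) x (EuclideanSpace.single p 1)‖ ^ 2)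
    + (∑ σ, ∫ x : Config N,
        ((∑ i : Fin N, ∑ j : Fin N, if i < j then 1 / ‖pos x i - pos x j‖ else 0)
          - ∑ i : Fin N, attraction z R (pos x i)) * ‖ψ σ x‖ ^ 2)
    + nuclearRepulsion z R * normSq ψ

/-- The energies `⟨ψ, H_N ψ⟩` of all normalised antisymmetric Schwartz wave functions of `N`
electrons of spin `1/2`. -/
def quantumEnergies {k : ℕ} (N : ℕ) (z : Fin k → ℝ) (R : Fin k → Space) : Set ℝ :=
  {e : ℝ | ∃ ψ : Wave N, Antisymmetric ψ ∧ normSq ψ = 1 ∧ quantumForm z R ψ = e}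

/-- The quantum ground state energy `E^Q(N, z, R) = inf spec H_N`. -/
noncomputable def quantumEnergy {k : ℕ} (N : ℕ) (z : Fin k → ℝ) (R : Fin k → Space) : ℝ :=
  sInf (quantumEnergies N z R)

/-- The Thomas-Fermi constant `γ = (3/5) (3 π²) ^ (2/3)`. -/
noncomputable def gammaTF : ℝ := 3 / 5 * (3 * Real.pi ^ 2) ^ (2 / 3 : ℝ)

/-- The Thomas-Fermi functional
`γ ∫ ρ ^ (5/3) - ∫ V ρ + (1/2) ∫∫ ρ(x) ρ(y) / |x - y| + U`. -/
noncomputable def thomasFermiForm {k : ℕ} (z : Fin k → ℝ) (R : Fin k → Space)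
    (ρ : Space → ℝ) : ℝ :=
  gammaTF * (∫ x, ρ x ^ (5 / 3 : ℝ)) - (∫ x, attraction z R x * ρ x)
    + 1 / 2 * (∫ x, ∫ y, ρ x * ρ y / ‖x - y‖) + nuclearRepulsion z R

/-- The admissible densities: `ρ ≥ 0`, `ρ ∈ L¹ ∩ L^{5/3}`, `∫ ρ ≤ N`. -/
def AdmissibleDensity (N : ℕ) (ρ : Space → ℝ) : Prop :=
  (∀ x, 0 ≤ ρ x) ∧ Integrable ρ ∧ Integrable (fun x => ρ x ^ (5 / 3 : ℝ)) ∧ ∫ x, ρ x ≤ N

/-- The values of the Thomas-Fermi functional at the admissible densities. -/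
def thomasFermiEnergies {k : ℕ} (N : ℕ) (z : Fin k → ℝ) (R : Fin k → Space) : Set ℝ :=
  {e : ℝ | ∃ ρ : Space → ℝ, AdmissibleDensity N ρ ∧ thomasFermiForm z R ρ = e}

/-- The Thomas-Fermi energy `E^TF(N, z, R)`. -/
noncomputable def thomasFermiEnergy {k : ℕ} (N : ℕ) (z : Fin k → ℝ) (R : Fin k → Space) : ℝ :=
  sInf (thomasFermiEnergies N z R)

end Pool.Agent.W819.TF
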