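import Pool.Agent.W819.TF.Defs
import Pool.Agent.Helper67.Coulomb

set_option autoImplicit false
open MeasureTheory SchwartzMap Set

namespace Pool.Agent.W819.TF

open Pool.Agent.Helper67.Conv (Space Config pos Wave Antisymmetric normSq)

lemma finrank_space : Module.finrank ℝ Space = 3 := by simp

/-- radial integrability with exponent less than three. -/
lemma integrable_rpow_ball :
    Integrable ((Metric.ball (0 : Space) 1).indicator (fun x => ‖x‖ ^ (-(5 / 2) : ℝ))) := by
  rw [integrable_indicator_iff measurableSet_ball]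
  rw [integrableOn_fun_norm_addHaar (volume : Measure Space)
    (f := fun r : ℝ => r ^ (-(5 / 2) : ℝ)) (r := 1)]
  rw [finrank_space]
  have h : IntegrableOn (fun y : ℝ => y ^ (-(1 / 2) : ℝ)) (Set.Ioo 0 1) := by
    have := (intervalIntegral.intervalIntegrable_rpow' (a := 0) (b := 1)
      (r := -(1 / 2)) (by norm_num)).1
    exact this.mono_set Set.Ioo_subset_Ioc_self
  refine (integrableOn_congr_fun ?_ measurableSet_Ioo).mpr h
  intro y hy
  have hy0 : 0 < y := hy.1
  simp only [smul_eq_mul]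
  rw [show (3 - 1 : ℕ) = 2 from rfl, ← Real.rpow_natCast, ← Real.rpow_add hy0]
  norm_num

/-- `a b ≤ a^{5/3} + b^{5/2}` for nonnegative numbers. -/
lemma young_simple {a b : ℝ} (ha : 0 ≤ a) (hb : 0 ≤ b) :
    a * b ≤ a ^ (5 / 3 : ℝ) + b ^ (5 / 2 : ℝ) := by
  have h := Real.young_inequality_of_nonneg ha hb (p := 5 / 3) (q := 5 / 2)
    (by constructor <;> norm_num)
  have h1 : 0 ≤ a ^ (5 / 3 : ℝ) := Real.rpow_nonneg ha _
  have h2 : 0 ≤ b ^ (5 / 2 : ℝ) := Real.rpow_nonneg hb _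
  calc a * b ≤ a ^ (5 / 3 : ℝ) / (5 / 3) + b ^ (5 / 2 : ℝ) / (5 / 2) := h
    _ ≤ _ := by
      have e1 : a ^ (5 / 3 : ℝ) / (5 / 3) ≤ a ^ (5 / 3 : ℝ) := div_le_self h1 (by norm_num)
      have e2 : b ^ (5 / 2 : ℝ) / (5 / 2) ≤ b ^ (5 / 2 : ℝ) := div_le_self h2 (by norm_num)
      linarith

/-- A density. -/
structure Dens (ρ : Space → ℝ) : Prop where
  nn : ∀ x, 0 ≤ ρ x
  i1 : Integrable ρ
  i2 : Integrable (fun x => ρ x ^ (5 / 3 : ℝ))

/-- the local majorant of the Coulomb potential -/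
noncomputable def maj (ρ : Space → ℝ) (x y : Space) : ℝ :=
  ρ y + (ρ y ^ (5 / 3 : ℝ) +
    (Metric.ball (0 : Space) 1).indicator (fun x => ‖x‖ ^ (-(5 / 2) : ℝ)) (y - x))

lemma div_le_maj {ρ : Space → ℝ} (h : Dens ρ) (x y : Space) : ρ y / ‖x - y‖ ≤ maj ρ x y := by
  unfold maj
  have h0 := h.nn y
  have h5 : 0 ≤ ρ y ^ (5 / 3 : ℝ) := Real.rpow_nonneg h0 _
  have hI : 0 ≤ (Metric.ball (0 : Space) 1).indicator (fun x => ‖x‖ ^ (-(5 / 2) : ℝ)) (y - x) :=
    Set.indicator_nonneg (fun z _ => Real.rpow_nonneg (norm_nonneg _) _) _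
  by_cases hb : y - x ∈ Metric.ball (0 : Space) 1
  · rw [Set.indicator_of_mem hb]
    have := young_simple h0 (inv_nonneg.mpr (norm_nonneg (x - y)))
    rw [norm_sub_rev y x]
    have e : (‖x - y‖⁻¹) ^ (5 / 2 : ℝ) = ‖x - y‖ ^ (-(5 / 2) : ℝ) := by
      rw [Real.inv_rpow (norm_nonneg _), Real.rpow_neg (norm_nonneg _)]
    rw [e] at this
    rw [div_eq_mul_inv]
    linarith
  · rw [Set.indicator_of_notMem hb] at hI ⊢
    have h1 : 1 ≤ ‖x - y‖ := by
      rw [norm_sub_rev]
      simpa using hb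
    have : ρ y / ‖x - y‖ ≤ ρ y := div_le_self h0 h1
    linarith

lemma maj_integrable {ρ : Space → ℝ} (h : Dens ρ) (x : Space) : Integrable (maj ρ x) := by
  unfold maj
  exact h.i1.add (h.i2.add (integrable_rpow_ball.comp_sub_right x))

/-- the uniform bound of the Coulomb potential -/
noncomputable def potBound (ρ : Space → ℝ) : ℝ :=
  (∫ y, ρ y) + ((∫ y, ρ y ^ (5 / 3 : ℝ)) +
    ∫ y, (Metric.ball (0 : Space) 1).indicator (fun x : Space => ‖x‖ ^ (-(5 / 2) : ℝ)) y)

lemma integral_maj {ρ : Space → ℝ} (h : Dens ρ) (x : Space) :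
    ∫ y, maj ρ x y = potBound ρ := by
  unfold maj potBound
  have hI := integrable_rpow_ball.comp_sub_right x
  have e1 : ∫ y, (ρ y + (ρ y ^ (5 / 3 : ℝ) + (Metric.ball (0 : Space) 1).indicator
      (fun x : Space => ‖x‖ ^ (-(5 / 2) : ℝ)) (y - x))) = (∫ y, ρ y) +
      ∫ y, (ρ y ^ (5 / 3 : ℝ) + (Metric.ball (0 : Space) 1).indicator
      (fun x : Space => ‖x‖ ^ (-(5 / 2) : ℝ)) (y - x)) := integral_add h.i1 (h.i2.add hI)
  have e2 : ∫ y, (ρ y ^ (5 / 3 : ℝ) + (Metric.ball (0 : Space) 1).indicator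
      (fun x : Space => ‖x‖ ^ (-(5 / 2) : ℝ)) (y - x)) = (∫ y, ρ y ^ (5 / 3 : ℝ)) +
      ∫ y, (Metric.ball (0 : Space) 1).indicator
      (fun x : Space => ‖x‖ ^ (-(5 / 2) : ℝ)) (y - x) := integral_add h.i2 hI
  rw [e1, e2, integral_sub_right_eq_self
      (fun y => (Metric.ball (0 : Space) 1).indicator (fun x : Space => ‖x‖ ^ (-(5 / 2) : ℝ)) y) x]

lemma pot_integrable {ρ : Space → ℝ} (h : Dens ρ) (x : Space) :
    Integrable (fun y => ρ y / ‖x - y‖) := by
  refine Integrable.mono' (maj_integrable h x) ?_ (Filter.Eventually.of_forall fun y => ?_)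
  · have hm : Measurable fun y : Space => ‖x - y‖⁻¹ := by fun_prop
    have := h.i1.aestronglyMeasurable.mul hm.aestronglyMeasurable
    refine this.congr (Filter.Eventually.of_forall fun y => ?_)
    simp [div_eq_mul_inv]
  · rw [Real.norm_of_nonneg (div_nonneg (h.nn y) (norm_nonneg _))]
    exact div_le_maj h x y

lemma coulomb_prod_integrable {ρ : Space → ℝ} (h : Dens ρ) :
    Integrable (fun p : Space × Space => ρ p.1 * ρ p.2 / ‖p.1 - p.2‖)
      ((volume : Measure Space).prod volume) := by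
  have hmeas : AEStronglyMeasurable (fun p : Space × Space => ρ p.1 * ρ p.2 / ‖p.1 - p.2‖)
      ((volume : Measure Space).prod volume) := by
    have hm : Measurable fun p : Space × Space => ‖p.1 - p.2‖⁻¹ := by fun_prop
    have h1 := h.i1.aestronglyMeasurable.comp_fst (ν := (volume : Measure Space))
    have h2 := h.i1.aestronglyMeasurable.comp_snd (μ := (volume : Measure Space))
    have := (h1.mul h2).mul hm.aestronglyMeasurable
    refine this.congr (Filter.Eventually.of_forall fun y => ?_)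
    simp [div_eq_mul_inv]
  rw [integrable_prod_iff hmeas]
  constructor
  · refine Filter.Eventually.of_forall fun x => ?_
    have := (pot_integrable h x).const_mul (ρ x)
    refine this.congr (Filter.Eventually.of_forall fun y => ?_)
    simp only
    ring
  · refine Integrable.mono' (h.i1.const_mul (potBound ρ)) hmeas.norm.integral_prod_right' ?_
    refine Filter.Eventually.of_forall fun x => ?_
    have e : ∀ y, ‖ρ x * ρ y / ‖x - y‖‖ = ρ x * (ρ y / ‖x - y‖) := by
      intro y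
      rw [Real.norm_of_nonneg (div_nonneg (mul_nonneg (h.nn x) (h.nn y)) (norm_nonneg _))]
      ring
    simp_rw [e]
    rw [integral_const_mul, Real.norm_of_nonneg]
    · rw [mul_comm]
      refine mul_le_mul_of_nonneg_right ?_ (h.nn x)
      rw [← integral_maj h x]
      exact integral_mono (pot_integrable h x) (maj_integrable h x) (div_le_maj h x)
    · refine mul_nonneg (h.nn x) (integral_nonneg fun y => ?_)
      exact div_nonneg (h.nn y) (norm_nonneg _)

/-- The Laplace transform of the density in the distance from `P`. -/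
noncomputable def lap (ρ : Space → ℝ) (P : Space) (t : ℝ) : ℝ :=
  ∫ x, ρ x * Real.exp (-(t * ‖x - P‖))

lemma exp_int_le {a T : ℝ} (ha : 0 < a) (_hT : 0 ≤ T) :
    ∫ t in (0 : ℝ)..T, Real.exp (-(t * a)) = (1 - Real.exp (-(T * a))) / a := by
  have h : ∀ t ∈ Set.uIcc 0 T, HasDerivAt (fun t : ℝ => -(Real.exp (-(t * a)) / a))
      (Real.exp (-(t * a))) t := by
    intro t _
    have h1 : HasDerivAt (fun t : ℝ => -(t * a)) (-(1 * a)) t :=
      ((hasDerivAt_id t).mul_const a).neg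
    have h2 := (h1.exp.div_const a).neg
    refine h2.congr_deriv ?_
    field_simp
  rw [intervalIntegral.integral_eq_sub_of_hasDerivAt h]
  · simp
    ring
  · apply Continuous.intervalIntegrable
    fun_prop

lemma lap_int_integrable {ρ : Space → ℝ} (h : Dens ρ) (P : Space) {T : ℝ} (_hT : 0 ≤ T) :
    Integrable (fun p : ℝ × Space => ρ p.2 * Real.exp (-(p.1 * ‖p.2 - P‖)))
      ((volume.restrict (Set.Ioc 0 T)).prod volume) := by
  have h0 : Integrable (fun p : ℝ × Space => (1 : ℝ) * ρ p.2)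
      ((volume.restrict (Set.Ioc 0 T)).prod volume) :=
    (integrable_const (1 : ℝ)).mul_prod h.i1
  simp only [one_mul] at h0
  refine Integrable.mono' h0 ?_ ?_
  · have hm : Continuous fun p : ℝ × Space => Real.exp (-(p.1 * ‖p.2 - P‖)) := by fun_prop
    exact h0.aestronglyMeasurable.mul hm.aestronglyMeasurable
  · have hpos : ∀ᵐ p : ℝ × Space ∂((volume.restrict (Set.Ioc 0 T)).prod volume),
        p.1 ∈ Set.Ioc 0 T := by
      have := (Measure.quasiMeasurePreserving_fst
        (μ := volume.restrict (Set.Ioc (0 : ℝ) T)) (ν := (volume : Measure Space))).ae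
        (ae_restrict_mem measurableSet_Ioc)
      exact this
    filter_upwards [hpos] with p hp
    rw [norm_mul, Real.norm_of_nonneg (h.nn _), Real.norm_of_nonneg (Real.exp_pos _).le]
    have : Real.exp (-(p.1 * ‖p.2 - P‖)) ≤ 1 := by
      rw [Real.exp_le_one_iff]
      have := mul_nonneg hp.1.le (norm_nonneg (p.2 - P))
      linarith
    exact mul_le_of_le_one_right (h.nn _) this

lemma ae_ne (P : Space) : ∀ᵐ x : Space, x ≠ P := by
  rw [ae_iff]
  simp

/-- `∫_0^T F = ∫ ρ (1 - e^{-T|x - P|}) / |x - P|`. -/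
lemma integral_lap {ρ : Space → ℝ} (h : Dens ρ) (P : Space) {T : ℝ} (hT : 0 ≤ T) :
    ∫ t in (0 : ℝ)..T, lap ρ P t =
      ∫ x, ρ x * ((1 - Real.exp (-(T * ‖x - P‖))) / ‖x - P‖) := by
  rw [intervalIntegral.integral_of_le hT]
  unfold lap
  have := integral_integral_swap (μ := volume.restrict (Set.Ioc (0 : ℝ) T))
    (ν := (volume : Measure Space)) (f := fun t x => ρ x * Real.exp (-(t * ‖x - P‖)))
    (lap_int_integrable h P hT)
  rw [this]
  refine integral_congr_ae ?_
  filter_upwards [ae_ne P] with x hx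
  have hx' : 0 < ‖x - P‖ := norm_pos_iff.mpr (sub_ne_zero.mpr hx)
  rw [integral_const_mul, ← intervalIntegral.integral_of_le hT, exp_int_le hx' hT]

lemma lap_prod_integrable {ρ : Space → ℝ} (h : Dens ρ) (P : Space) {T : ℝ} :
    Integrable (fun q : ℝ × (Space × Space) => (ρ q.2.1 * ρ q.2.2) *
      Real.exp (-(q.1 * (‖q.2.1 - P‖ + ‖q.2.2 - P‖))))
      ((volume.restrict (Set.Ioc 0 T)).prod ((volume : Measure Space).prod volume)) := by
  have h0 : Integrable (fun q : ℝ × (Space × Space) => (1 : ℝ) * (ρ q.2.1 * ρ q.2.2))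
      ((volume.restrict (Set.Ioc 0 T)).prod ((volume : Measure Space).prod volume)) :=
    (integrable_const (1 : ℝ)).mul_prod (h.i1.mul_prod h.i1)
  simp only [one_mul] at h0
  refine Integrable.mono' h0 ?_ ?_
  · have hm : Continuous fun q : ℝ × (Space × Space) =>
        Real.exp (-(q.1 * (‖q.2.1 - P‖ + ‖q.2.2 - P‖))) := by fun_prop
    exact h0.aestronglyMeasurable.mul hm.aestronglyMeasurable
  · have hpos : ∀ᵐ q : ℝ × (Space × Space) ∂((volume.restrict (Set.Ioc 0 T)).prod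
        ((volume : Measure Space).prod volume)), q.1 ∈ Set.Ioc 0 T := by
      have := (Measure.quasiMeasurePreserving_fst
        (μ := volume.restrict (Set.Ioc (0 : ℝ) T))
        (ν := (volume : Measure Space).prod (volume : Measure Space))).ae
        (ae_restrict_mem measurableSet_Ioc)
      exact this
    filter_upwards [hpos] with q hq
    rw [norm_mul, Real.norm_of_nonneg (mul_nonneg (h.nn _) (h.nn _)),
      Real.norm_of_nonneg (Real.exp_pos _).le]
    have : Real.exp (-(q.1 * (‖q.2.1 - P‖ + ‖q.2.2 - P‖))) ≤ 1 := by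
      rw [Real.exp_le_one_iff]
      have := mul_nonneg hq.1.le (add_nonneg (norm_nonneg (q.2.1 - P)) (norm_nonneg (q.2.2 - P)))
      linarith
    exact mul_le_of_le_one_right (mul_nonneg (h.nn _) (h.nn _)) this

/-- `∫_0^T F² ≤ ∫∫ ρ ρ / |x - y|`. -/
lemma integral_lap_sq_le {ρ : Space → ℝ} (h : Dens ρ) (P : Space) {T : ℝ} (hT : 0 ≤ T) :
    ∫ t in (0 : ℝ)..T, lap ρ P t ^ 2 ≤ ∫ x, ∫ y, ρ x * ρ y / ‖x - y‖ := by
  have hC := coulomb_prod_integrable h
  have hL := lap_prod_integrable h P (T := T)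
  have e1 : ∀ t, lap ρ P t ^ 2 = ∫ p : Space × Space, (ρ p.1 * ρ p.2) *
      Real.exp (-(t * (‖p.1 - P‖ + ‖p.2 - P‖))) ∂((volume : Measure Space).prod volume) := by
    intro t
    rw [sq]
    unfold lap
    rw [← integral_prod_mul]
    refine integral_congr_ae (Filter.Eventually.of_forall fun p => ?_)
    simp only
    have : -(t * (‖p.1 - P‖ + ‖p.2 - P‖)) = -(t * ‖p.1 - P‖) + -(t * ‖p.2 - P‖) := by ring
    rw [this, Real.exp_add]
    ring
  rw [intervalIntegral.integral_of_le hT]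
  simp_rw [e1]
  rw [integral_integral_swap (μ := volume.restrict (Set.Ioc (0 : ℝ) T))
    (ν := (volume : Measure Space).prod volume)
    (f := fun t p => (ρ p.1 * ρ p.2) * Real.exp (-(t * (‖p.1 - P‖ + ‖p.2 - P‖)))) hL]
  rw [← integral_prod _ hC]
  refine integral_mono_ae hL.integral_prod_right hC ?_
  have hne : ∀ᵐ p : Space × Space ∂((volume : Measure Space).prod volume), p.1 ≠ P :=
    (Measure.quasiMeasurePreserving_fst (μ := (volume : Measure Space))
      (ν := (volume : Measure Space))).ae (ae_ne P)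
  have hne2 : ∀ᵐ p : Space × Space ∂((volume : Measure Space).prod volume), p.1 ≠ p.2 := by
    rw [Measure.ae_prod_iff_ae_ae]
    · refine Filter.Eventually.of_forall fun x => ?_
      filter_upwards [ae_ne x] with y hy
      exact hy.symm
    · have : MeasurableSet {p : Space × Space | p.1 = p.2} :=
        measurableSet_eq_fun measurable_fst measurable_snd
      exact this.compl
  filter_upwards [hne, hne2] with p hp hp2
  have ha : 0 < ‖p.1 - P‖ + ‖p.2 - P‖ :=
    add_pos_of_pos_of_nonneg (norm_pos_iff.mpr (sub_ne_zero.mpr hp)) (norm_nonneg _)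
  have hb : 0 < ‖p.1 - p.2‖ := norm_pos_iff.mpr (sub_ne_zero.mpr hp2)
  rw [integral_const_mul, ← intervalIntegral.integral_of_le hT, exp_int_le ha hT, div_eq_mul_inv
    (ρ p.1 * ρ p.2)]
  refine mul_le_mul_of_nonneg_left ?_ (mul_nonneg (h.nn _) (h.nn _))
  have hle : ‖p.1 - p.2‖ ≤ ‖p.1 - P‖ + ‖p.2 - P‖ := by
    have : p.1 - p.2 = (p.1 - P) - (p.2 - P) := by abel
    rw [this]
    exact norm_sub_le _ _
  calc (1 - Real.exp (-(T * (‖p.1 - P‖ + ‖p.2 - P‖)))) / (‖p.1 - P‖ + ‖p.2 - P‖)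
      ≤ 1 / (‖p.1 - P‖ + ‖p.2 - P‖) := by
        refine div_le_div_of_nonneg_right ?_ ha.le
        have := Real.exp_pos (-(T * (‖p.1 - P‖ + ‖p.2 - P‖)))
        linarith
    _ ≤ ‖p.1 - p.2‖⁻¹ := by
        rw [one_div]
        exact inv_anti₀ hb hle

lemma lap_intervalIntegrable {ρ : Space → ℝ} (h : Dens ρ) (P : Space) {T : ℝ} (hT : 0 ≤ T) :
    IntervalIntegrable (lap ρ P) volume 0 T := by
  rw [intervalIntegrable_iff_integrableOn_Ioc_of_le hT]
  exact (lap_int_integrable h P hT).integral_prod_left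

lemma lap_sq_intervalIntegrable {ρ : Space → ℝ} (h : Dens ρ) (P : Space) {T : ℝ} (hT : 0 ≤ T) :
    IntervalIntegrable (fun t => lap ρ P t ^ 2) volume 0 T := by
  rw [intervalIntegrable_iff_integrableOn_Ioc_of_le hT]
  have := (lap_prod_integrable h P (T := T)).integral_prod_left
  refine this.congr (Filter.Eventually.of_forall fun t => ?_)
  simp only
  rw [sq]
  unfold lap
  rw [← integral_prod_mul]
  refine integral_congr_ae (Filter.Eventually.of_forall fun p => ?_)
  simp only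
  have : -(t * (‖p.1 - P‖ + ‖p.2 - P‖)) = -(t * ‖p.1 - P‖) + -(t * ‖p.2 - P‖) := by ring
  rw [this, Real.exp_add]
  ring

/-- The elementary screening bound. -/
lemma screening {ρ : Space → ℝ} (h : Dens ρ) (P : Space) {T : ℝ} (hT : 0 ≤ T) (z : ℝ) :
    -(1 / 2 * z ^ 2 * T) ≤ 1 / 2 * (∫ x, ∫ y, ρ x * ρ y / ‖x - y‖) -
      z * ∫ x, ρ x * ((1 - Real.exp (-(T * ‖x - P‖))) / ‖x - P‖) := by
  have h1 := integral_lap_sq_le h P hT
  have h2 := integral_lap h P hT
  have i1 := lap_intervalIntegrable h P hT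
  have i2 := lap_sq_intervalIntegrable h P hT
  have h3 : ∫ t in (0 : ℝ)..T, (-(1 / 2 * z ^ 2) : ℝ) ≤
      ∫ t in (0 : ℝ)..T, (1 / 2 * lap ρ P t ^ 2 - z * lap ρ P t) := by
    refine intervalIntegral.integral_mono_on hT (by simp) ((i2.const_mul _).sub (i1.const_mul _)) ?_
    intro t _
    nlinarith [sq_nonneg (lap ρ P t - z)]
  rw [intervalIntegral.integral_sub (i2.const_mul _) (i1.const_mul _),
    intervalIntegral.integral_const_mul, intervalIntegral.integral_const_mul,
    intervalIntegral.integral_const, h2, smul_eq_mul] at h3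
  linarith

/-- The pointwise semiclassical bound. -/
lemma pointwise_tf {a w : ℝ} (ha : 0 ≤ a) (hw : 0 ≤ w) :
    -(2 / (15 * Real.pi ^ 2) * w ^ (5 / 2 : ℝ)) ≤ gammaTF * a ^ (5 / 3 : ℝ) - w * a := by
  set c : ℝ := 3 * Real.pi ^ 2 with hc
  have hc0 : 0 < c := by positivity
  have hcc : 0 < c ^ (2 / 5 : ℝ) := Real.rpow_pos_of_pos hc0 _
  have h := Real.young_inequality_of_nonneg (a := c ^ (2 / 5 : ℝ) * a) (b := w / c ^ (2 / 5 : ℝ))
    (by positivity) (by positivity) (p := 5 / 3) (q := 5 / 2) (by constructor <;> norm_num)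
  have e1 : c ^ (2 / 5 : ℝ) * a * (w / c ^ (2 / 5 : ℝ)) = w * a := by field_simp
  have e2 : (c ^ (2 / 5 : ℝ) * a) ^ (5 / 3 : ℝ) = c ^ (2 / 3 : ℝ) * a ^ (5 / 3 : ℝ) := by
    rw [Real.mul_rpow hcc.le ha, ← Real.rpow_mul hc0.le]
    norm_num
  have e3 : (w / c ^ (2 / 5 : ℝ)) ^ (5 / 2 : ℝ) = w ^ (5 / 2 : ℝ) / c := by
    rw [Real.div_rpow hw hcc.le, ← Real.rpow_mul hc0.le]
    norm_num
  rw [e1, e2, e3] at h
  have e4 : gammaTF = 3 / 5 * c ^ (2 / 3 : ℝ) := rfl
  have e5 : 2 / (15 * Real.pi ^ 2) * w ^ (5 / 2 : ℝ) = w ^ (5 / 2 : ℝ) / c / (5 / 2) := by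
    rw [hc]
    field_simp
    ring
  rw [e4, e5]
  have e6 : c ^ (2 / 3 : ℝ) * a ^ (5 / 3 : ℝ) / (5 / 3) =
    3 / 5 * c ^ (2 / 3 : ℝ) * a ^ (5 / 3 : ℝ) := by ring
  rw [e6] at h
  linarith

/-- the tail profile -/
noncomputable def tailp (z T r : ℝ) : ℝ := (z * (Real.exp (-(T * r)) / r)) ^ (5 / 2 : ℝ)

lemma tail_radial {z T : ℝ} (hz : 0 < z) (_hT : 0 < T) {r : ℝ} (hr : 0 < r) :
    r ^ 2 * tailp z T r = z ^ (5 / 2 : ℝ) * (r ^ (-(1 / 2) : ℝ) * Real.exp (-(5 / 2 * T * r))) := by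
  unfold tailp
  rw [Real.mul_rpow hz.le (by positivity), Real.div_rpow (Real.exp_pos _).le hr.le,
    ← Real.exp_mul]
  have h1 : r ^ (-(1 / 2) : ℝ) = r ^ 2 / r ^ (5 / 2 : ℝ) := by
    rw [← Real.rpow_natCast, ← Real.rpow_sub hr]
    norm_num
  rw [h1]
  have h2 : -(T * r) * (5 / 2) = -(5 / 2 * T * r) := by ring
  rw [h2]
  ring

lemma tail_integral {z T : ℝ} (hz : 0 < z) (hT : 0 < T) :
    ∫ x : Space, tailp z T ‖x‖ =
      4 * Real.pi * (z ^ (5 / 2 : ℝ) * ((5 / 2 * T) ^ (-(1 / 2) : ℝ) * Real.sqrt Real.pi)) := by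
  have h := integral_fun_norm_addHaar (volume : Measure Space) (tailp z T)
  rw [h, finrank_space]
  have e1 : ∫ y in Set.Ioi (0 : ℝ), y ^ (3 - 1) • tailp z T y =
      ∫ y in Set.Ioi (0 : ℝ), z ^ (5 / 2 : ℝ) *
        (y ^ ((1 / 2 : ℝ) - 1) * Real.exp (-(5 / 2 * T * y))) := by
    refine setIntegral_congr_fun measurableSet_Ioi fun y hy => ?_
    simp only [smul_eq_mul]
    have := tail_radial hz hT hy
    rw [show (3 - 1 : ℕ) = 2 from rfl, this]
    norm_num
  rw [e1, integral_const_mul, Real.integral_rpow_mul_exp_neg_mul_Ioi (by norm_num) (by positivity),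
    Real.Gamma_one_half_eq, Measure.real, EuclideanSpace.volume_ball_fin_three]
  simp only [nsmul_eq_mul, smul_eq_mul]
  have hpi : 0 ≤ Real.pi * 4 / 3 := by positivity
  rw [ENNReal.ofReal_one, one_pow, one_mul, ENNReal.toReal_ofReal hpi]
  rw [one_div (5 / 2 * T), Real.inv_rpow (by positivity), Real.rpow_neg (by positivity)]
  push_cast
  ring

lemma tail_integrable {z T : ℝ} (hz : 0 < z) (hT : 0 < T) :
    Integrable (fun x : Space => tailp z T ‖x‖) := by
  rw [integrable_fun_norm_addHaar (volume : Measure Space) (f := tailp z T), finrank_space]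
  have h : IntegrableOn (fun y : ℝ => z ^ (5 / 2 : ℝ) *
        (y ^ ((1 / 2 : ℝ) - 1) * Real.exp (-(5 / 2 * T * y)))) (Set.Ioi 0) := by
    refine Integrable.const_mul ?_ _
    exact integrableOn_rpow_mul_exp_neg_mul_rpow (s := 1 / 2 - 1) (p := 1) (b := 5 / 2 * T)
      (by norm_num) (by norm_num) (by positivity) |>.congr_fun (fun y hy => by simp) measurableSet_Ioi
  refine h.congr_fun ?_ measurableSet_Ioi
  intro y hy
  simp only [smul_eq_mul]
  have := tail_radial hz hT hy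
  rw [show (3 - 1 : ℕ) = 2 from rfl, this]
  norm_num


lemma const_bound : 8 * Real.sqrt Real.pi / (15 * Real.pi) * Real.sqrt (6 / 5) ≤ 991 / 3000 := by
  have hpi := Real.pi_gt_d2
  have h0 : 0 ≤ 8 * Real.sqrt Real.pi / (15 * Real.pi) * Real.sqrt (6 / 5) := by positivity
  have hsq : (8 * Real.sqrt Real.pi / (15 * Real.pi) * Real.sqrt (6 / 5)) ^ 2 ≤
      (991 / 3000 : ℝ) ^ 2 := by
    rw [mul_pow, div_pow, mul_pow, Real.sq_sqrt Real.pi_pos.le, Real.sq_sqrt (by norm_num)]
    have : 8 ^ 2 * Real.pi / (15 * Real.pi) ^ 2 * (6 / 5) = 384 / (1125 * Real.pi) := by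
      field_simp
      norm_num
    rw [this, div_le_iff₀ (by positivity)]
    nlinarith
  exact (abs_le_of_sq_le_sq' hsq (by norm_num)).2

/-- Lower bound for the Thomas-Fermi functional of one nucleus. -/
lemma tf_lower {z : ℝ} (hz : 0 < z) (R : Fin 1 → Space) {ρ : Space → ℝ} (h : Dens ρ) :
    -(497 / 1000 * z ^ (7 / 3 : ℝ)) ≤ thomasFermiForm (fun _ => z) R ρ := by
  set P := R 0 with hP
  have hz3 : 0 < z ^ (1 / 3 : ℝ) := Real.rpow_pos_of_pos hz _
  set T : ℝ := z ^ (1 / 3 : ℝ) / 3 with hT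
  have hT0 : 0 < T := by positivity
  have hs := screening h P hT0.le z
  -- integrability of the pieces
  have hV : Integrable (fun x => ρ x / ‖x - P‖) := by
    refine (pot_integrable h P).congr (Filter.Eventually.of_forall fun x => ?_)
    simp only [norm_sub_rev]
  have hM : Integrable (fun x => ρ x * (Real.exp (-(T * ‖x - P‖)) / ‖x - P‖)) := by
    refine Integrable.mono' hV ?_ (Filter.Eventually.of_forall fun x => ?_)
    · have hm : Measurable fun x : Space => Real.exp (-(T * ‖x - P‖)) / ‖x - P‖ := by fun_prop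
      exact h.i1.aestronglyMeasurable.mul hm.aestronglyMeasurable
    · rw [Real.norm_of_nonneg (mul_nonneg (h.nn x) (by positivity)), mul_div_assoc']
      refine div_le_div_of_nonneg_right ?_ (norm_nonneg _)
      refine mul_le_of_le_one_right (h.nn x) ?_
      rw [Real.exp_le_one_iff]
      have := mul_nonneg hT0.le (norm_nonneg (x - P))
      linarith
  have hsplit : ∫ x, ρ x * ((1 - Real.exp (-(T * ‖x - P‖))) / ‖x - P‖) =
      (∫ x, ρ x / ‖x - P‖) - ∫ x, ρ x * (Real.exp (-(T * ‖x - P‖)) / ‖x - P‖) := by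
    rw [← integral_sub hV hM]
    congr 1
    funext x
    ring
  have hatt : ∫ x, attraction (fun _ : Fin 1 => z) R x * ρ x = z * ∫ x, ρ x / ‖x - P‖ := by
    rw [← integral_const_mul]
    congr 1
    funext x
    unfold attraction
    rw [Fin.sum_univ_one]
    ring
  have hnuc : nuclearRepulsion (fun _ : Fin 1 => z) R = 0 := by
    unfold nuclearRepulsion
    simp
  have htl := tail_integrable hz hT0
  have htl' : Integrable (fun x : Space => tailp z T ‖x - P‖) :=
    htl.comp_sub_right P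
  have hti : ∫ x : Space, tailp z T ‖x - P‖ = ∫ x : Space, tailp z T ‖x‖ :=
    integral_sub_right_eq_self (fun x : Space => tailp z T ‖x‖) P
  have hpt : -(2 / (15 * Real.pi ^ 2) * ∫ x : Space, tailp z T ‖x - P‖) ≤
      gammaTF * (∫ x, ρ x ^ (5 / 3 : ℝ)) -
        z * ∫ x, ρ x * (Real.exp (-(T * ‖x - P‖)) / ‖x - P‖) := by
    rw [← integral_const_mul, ← integral_const_mul, ← integral_const_mul, ← integral_neg,
      ← integral_sub (h.i2.const_mul _) (hM.const_mul _)]
    refine integral_mono (htl'.const_mul _).neg ((h.i2.const_mul _).sub (hM.const_mul _)) ?_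
    intro x
    have := pointwise_tf (a := ρ x) (w := z * (Real.exp (-(T * ‖x - P‖)) / ‖x - P‖)) (h.nn x)
      (by positivity)
    simp only [tailp]
    refine this.trans (le_of_eq ?_)
    ring
  rw [hti, tail_integral hz hT0] at hpt
  have key : 2 / (15 * Real.pi ^ 2) * (4 * Real.pi * (z ^ (5 / 2 : ℝ) *
      ((5 / 2 * T) ^ (-(1 / 2) : ℝ) * Real.sqrt Real.pi))) =
      8 * Real.sqrt Real.pi / (15 * Real.pi) * Real.sqrt (6 / 5) * z ^ (7 / 3 : ℝ) := by
    have e1 : (5 / 2 * T) ^ (-(1 / 2) : ℝ) = Real.sqrt (6 / 5) * z ^ (-(1 / 6) : ℝ) := by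
      have : 5 / 2 * T = (6 / 5)⁻¹ * z ^ (1 / 3 : ℝ) := by
        rw [hT]
        ring
      rw [this, Real.mul_rpow (by norm_num) hz3.le, ← Real.rpow_mul hz.le,
        Real.inv_rpow (by norm_num), Real.rpow_neg (by norm_num), inv_inv, Real.sqrt_eq_rpow]
      norm_num
    have e2 : z ^ (7 / 3 : ℝ) = z ^ (5 / 2 : ℝ) * z ^ (-(1 / 6) : ℝ) := by
      rw [← Real.rpow_add hz]
      norm_num
    rw [e1, e2]
    field_simp
    ring
  rw [key] at hpt
  have e3 : 1 / 2 * z ^ 2 * T = 1 / 6 * z ^ (7 / 3 : ℝ) := by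
    have : z ^ (7 / 3 : ℝ) = z ^ 2 * z ^ (1 / 3 : ℝ) := by
      rw [← Real.rpow_natCast, ← Real.rpow_add hz]
      norm_num
    rw [this, hT]
    ring
  have hz7 : 0 < z ^ (7 / 3 : ℝ) := Real.rpow_pos_of_pos hz _
  have hc := mul_le_mul_of_nonneg_right const_bound hz7.le
  unfold thomasFermiForm
  rw [hatt, hnuc]
  rw [hsplit, e3] at hs
  linarith

end Pool.Agent.W819.TF
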